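import Mathlib

set_option autoImplicit false

/-!
# Cross-intersecting pairs of projective subspaces

If `U i, V i` are non-zero subspaces of `F ^ (n + 1)` with `U i ∩ V i = 0` and `U i ∩ V j ≠ 0` for
`i < j`, then there are at most `2 ^ (n + 1) - 2` pairs.  Enlarge `V i` to a complement of `U i`;
for each dimension `k` of `U i` the exterior products of bases of the `U i` are linearly
independent in the `k`-th exterior power, and `1 ≤ k ≤ n`.
-/

namespace Pool.Agent.Results.MP_59f694_co.ProjectivePairs

open Finset Module

variable {F : Type*} [Field F] {E : Type*} [AddCommGroup E] [Module F E]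

/-- fix the last arguments of an alternating map -/
def fixRight {k : ℕ} {ι : Type*} [DecidableEq ι] (D : E [⋀^(Fin k ⊕ ι)]→ₗ[F] F) (v : ι → E) :
    E [⋀^Fin k]→ₗ[F] F where
  toFun x := D (Sum.elim x v)
  map_update_add' := by
    intro _ x i a b
    have e : ∀ c, Sum.elim (Function.update x i c) v
        = Function.update (Sum.elim x v) (Sum.inl i) c := by
      intro c
      ext s
      rcases s with s | s
      · by_cases h : s = i
        · subst h; simp
        · simp [h]
      · simp
    rw [e, e, e]
    exact D.map_update_add _ _ _ _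
  map_update_smul' := by
    intro _ x i a b
    have e : ∀ c, Sum.elim (Function.update x i c) v
        = Function.update (Sum.elim x v) (Sum.inl i) c := by
      intro c
      ext s
      rcases s with s | s
      · by_cases h : s = i
        · subst h; simp
        · simp [h]
      · simp
    rw [e, e]
    exact D.map_update_smul _ _ _ _
  map_eq_zero_of_eq' := by
    intro x i j hij hne
    exact D.map_eq_zero_of_eq (Sum.elim x v) (i := Sum.inl i) (j := Sum.inl j)
      (by simpa using hij) (by simpa using hne)

lemma fixRight_apply {k : ℕ} {ι : Type*} [DecidableEq ι] (D : E [⋀^(Fin k ⊕ ι)]→ₗ[F] F)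
    (v : ι → E) (x : Fin k → E) : fixRight D v x = D (Sum.elim x v) := rfl

variable [FiniteDimensional F E]

/-- the functional detecting `U` against a complement `C`: it does not vanish on a basis of `U`
and vanishes on families spanning a subspace that meets `C` -/
lemma exists_functional {k : ℕ} (U C : Submodule F E) (h : IsCompl U C) (b : Basis (Fin k) F U) :
    ∃ φ : (⋀[F]^k E) →ₗ[F] F,
      φ (exteriorPower.ιMulti F k (fun a => (b a : E))) ≠ 0 ∧
      ∀ (U' : Submodule F E) (b' : Basis (Fin k) F U'), ¬ Disjoint U' C →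
        φ (exteriorPower.ιMulti F k (fun a => (b' a : E))) = 0 := by
  classical
  let l := finrank F C
  let c : Basis (Fin l) F C := finBasis F C
  let B : Basis (Fin k ⊕ Fin l) F E := (b.prod c).map (Submodule.prodEquivOfIsCompl U C h)
  have hB : (B : Fin k ⊕ Fin l → E) = Sum.elim (fun a => (b a : E)) (fun a => (c a : E)) := by
    ext s
    rcases s with s | s
    · simp [B]
    · simp [B]
  refine ⟨exteriorPower.alternatingMapLinearEquiv (fixRight B.det (fun a => (c a : E))), ?_, ?_⟩
  · rw [exteriorPower.alternatingMapLinearEquiv_apply_ιMulti, fixRight_apply, ← hB, B.det_self]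
    exact one_ne_zero
  · intro U' b' hU'
    rw [exteriorPower.alternatingMapLinearEquiv_apply_ιMulti, fixRight_apply]
    apply AlternatingMap.map_linearDependent
    intro hli
    apply hU'
    rw [linearIndependent_sum] at hli
    have h3 := hli.2.2
    have e1 : (Sum.elim (fun a => (b' a : E)) (fun a => (c a : E))) ∘ Sum.inl
        = U'.subtype ∘ b' := rfl
    have e2 : (Sum.elim (fun a => (b' a : E)) (fun a => (c a : E))) ∘ Sum.inr
        = C.subtype ∘ c := rfl
    rw [e1, e2, Set.range_comp, Set.range_comp, Submodule.span_image, Submodule.span_image,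
      b'.span_eq, c.span_eq, Submodule.map_subtype_top, Submodule.map_subtype_top] at h3
    exact h3

/-- at most `choose (dim E) k` pairs with `dim U i = k` -/
lemma card_le {m k : ℕ} (U V : Fin m → Submodule F E) (h1 : ∀ i, U i ⊓ V i = ⊥)
    (h2 : ∀ i j, i < j → U i ⊓ V j ≠ ⊥) :
    ((univ : Finset (Fin m)).filter (fun i => finrank F (U i) = k)).card
      ≤ (finrank F E).choose k := by
  classical
  set I : Finset (Fin m) := (univ : Finset (Fin m)).filter (fun i => finrank F (U i) = k) with hI
  have hb : ∀ i : I, Nonempty (Basis (Fin k) F (U i)) := by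
    rintro ⟨i, hi⟩
    rw [hI, mem_filter] at hi
    exact ⟨finBasisOfFinrankEq F (U i) hi.2⟩
  have b : ∀ i : I, Basis (Fin k) F (U i) := fun i => (hb i).some
  have hC : ∀ i : I, ∃ C : Submodule F E, V i ≤ C ∧ IsCompl (U i) C := by
    intro i
    have hd : Disjoint (V i) (U i) := by
      rw [disjoint_comm, disjoint_iff]
      exact h1 i
    obtain ⟨C, hC1, hC2⟩ := hd.exists_isCompl
    exact ⟨C, hC1, hC2.symm⟩
  choose C hC1 hC2 using hC
  choose φ hφ1 hφ2 using fun i : I => exists_functional (U i) (C i) (hC2 i) (b i)
  set u : I → ⋀[F]^k E := fun i => exteriorPower.ιMulti F k (fun a => (b i a : E)) with hu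
  have hzero : ∀ i j : I, i.1 < j.1 → φ j (u i) = 0 := by
    intro i j hij
    refine hφ2 j (U i) (b i) ?_
    intro hd
    apply h2 i j hij
    rw [← disjoint_iff]
    exact hd.mono_right (hC1 j)
  have hli : LinearIndependent F u := by
    rw [Fintype.linearIndependent_iff]
    intro g hg
    by_contra hcon
    push Not at hcon
    -- the largest index with a non-zero coefficient
    obtain ⟨j, hj, hjmax⟩ : ∃ j : I, g j ≠ 0 ∧ ∀ i : I, g i ≠ 0 → i ≤ j := by
      obtain ⟨i₀, hi₀⟩ := hcon
      obtain ⟨j, hj, hj'⟩ := exists_max_image (univ.filter (fun i : I => g i ≠ 0)) id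
        ⟨i₀, by simp [hi₀]⟩
      refine ⟨j, (mem_filter.1 hj).2, fun i hi => ?_⟩
      exact hj' i (by simp [hi])
    have h3 := congrArg (φ j) hg
    rw [map_sum, map_zero, sum_eq_single j] at h3
    · rw [map_smul, smul_eq_mul] at h3
      rcases mul_eq_zero.1 h3 with h3 | h3
      · exact hj h3
      · exact hφ1 j h3
    · intro i _ hij
      rw [map_smul, smul_eq_mul]
      by_cases hgi : g i = 0
      · rw [hgi, zero_mul]
      · have hlt : i < j := lt_of_le_of_ne (hjmax i hgi) hij
        rw [hzero i j hlt, mul_zero]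
    · intro h
      exact absurd (mem_univ j) h
  have h3 := hli.fintype_card_le_finrank
  rw [Fintype.card_coe, exteriorPower.finrank_eq] at h3
  exact h3

/-- **Theorem.** For every field `F` and every `n`, a cross-intersecting sequence of `m` pairs of
non-empty projective subspaces of the `n`-dimensional projective space over `F` has
`m ≤ 2 ^ (n + 1) - 2`. -/
theorem result (F : Type*) [Field F] (n m : ℕ) (U V : Fin m → Submodule F (Fin (n + 1) → F))
    (hU : ∀ i, U i ≠ ⊥) (hV : ∀ i, V i ≠ ⊥) (h1 : ∀ i, U i ⊓ V i = ⊥)
    (h2 : ∀ i j, i < j → U i ⊓ V j ≠ ⊥) : m ≤ 2 ^ (n + 1) - 2 := by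
  classical
  have hdim : finrank F (Fin (n + 1) → F) = n + 1 := by simp
  have hk : ∀ i : Fin m, finrank F (U i) ∈ Ico 1 (n + 1) := by
    intro i
    have a1 : 0 < finrank F (U i) := by
      rw [Nat.pos_iff_ne_zero]
      intro h
      exact hU i (Submodule.finrank_eq_zero.1 h)
    have a2 : 0 < finrank F (V i) := by
      rw [Nat.pos_iff_ne_zero]
      intro h
      exact hV i (Submodule.finrank_eq_zero.1 h)
    have a3 := Submodule.finrank_add_le_finrank_add_finrank (U i) (V i)
    have a4 := Submodule.finrank_sup_add_finrank_inf_eq (U i) (V i)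
    rw [h1 i, finrank_bot] at a4
    have a5 := Submodule.finrank_le (U i ⊔ V i)
    rw [hdim] at a5
    rw [mem_Ico]
    omega
  have h3 : m = ∑ k ∈ Ico 1 (n + 1),
      ((univ : Finset (Fin m)).filter (fun i => finrank F (U i) = k)).card := by
    have := card_eq_sum_card_fiberwise (s := (univ : Finset (Fin m))) (t := Ico 1 (n + 1))
      (f := fun i => finrank F (U i)) (fun i _ => mem_coe.2 (hk i))
    rwa [card_univ, Fintype.card_fin] at this
  have h4 : ∑ k ∈ Ico 1 (n + 1),
      ((univ : Finset (Fin m)).filter (fun i => finrank F (U i) = k)).card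
      ≤ ∑ k ∈ Ico 1 (n + 1), (n + 1).choose k := by
    refine sum_le_sum fun k _ => ?_
    have := card_le (k := k) U V h1 h2
    rwa [hdim] at this
  have h5 : ∑ k ∈ Ico 1 (n + 1), (n + 1).choose k + 2 = 2 ^ (n + 1) := by
    have h6 := Nat.sum_range_choose (n + 1)
    rw [sum_range_succ, Nat.choose_self, range_eq_Ico, sum_eq_sum_Ico_succ_bot (by omega),
      Nat.choose_zero_right] at h6
    have h7 : 1 + ∑ k ∈ Ico 1 (n + 1), (n + 1).choose k + 1 = 2 ^ (n + 1) := h6
    rw [← h7]
    ring
  omega

end Pool.Agent.Results.MP_59f694_co.ProjectivePairs
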